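import Mathlib
import Pool.Agent.N183.U5.Cls
import Pool.Agent.K9h17.L.Pair

/-!
# Elements of rank one if the multiplicities are different
-/

set_option linter.unusedSectionVars false

namespace Pool.Agent.K9h17.G

open Matrix Module Pool.Agent.W437.HC Pool.Agent.W437.HD Pool.Agent.W548.Odd Pool.Agent.W522.U
open Pool.Agent.H204R3.SP Pool.Agent.H204R3.GP Pool.Agent.Y90 Pool.Agent.Y224.TS
open Pool.Agent.W437.HP (cK cK_mul cK_one)
open Pool.Agent.R915 (VE mem_VE VE_cj VE_main VE_stab eig_conj root_conj)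
open Pool.Agent.N183.TS Pool.Agent.N183.U5
open Polynomial

noncomputable section

variable {G : ℕ} {Z : Matrix (Fin G) (Fin G) ℂ}
  {S : Set (Matrix (Fin G ⊕ Fin G) (Fin G ⊕ Fin G) ℂ)}

/-- The pair is not a pair of consecutive binomial coefficients (different from one). -/
def NotBin (a b : ℕ) : Prop :=
  ∀ d s : ℕ, 2 ≤ s → s + 1 ≤ d → ¬(a = d.choose (s - 1) ∧ b = d.choose s)

variable (h : TD Z S) (hZ : PM Z) {D : Matrix (Fin G ⊕ Fin G) (Fin G ⊕ Fin G) ℂ} (hD : D ∈ S)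
  {U : Submodule ℂ (Fin G ⊕ Fin G → ℂ)} (hU : IrS (LZ Z) U)
include h hZ hD hU

/-- Elements of rank one if the multiplicities are different. -/
theorem rk1_ne {σ : ℂ ≃+* ℂ}
    (hσ : ∀ P : Matrix (Fin G ⊕ Fin G) (Fin G ⊕ Fin G) ℂ, (∀ X ∈ LZ Z, P * X = X * P) →
      (P * D).trace = (P * DS Z σ).trace) {p q : ℕ} (hpd : pd Z (cjS σ.symm U) = p)
    (hqd : qd Z (cjS σ.symm U) = q)
    (hp : 0 < p) (hq : 0 < q) (hne : p ≠ q) (hnb : NotBin p q)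
    (hτ : ∀ τ : ℂ ≃+* ℂ, 0 < pd Z (cjS τ U) → 0 < qd Z (cjS τ U) →
      ¬p + q ∣ p.gcd q * (pd Z (cjS τ U)).gcd (qd Z (cjS τ U))) : Rk1D S D U := by
  have hU' : IrS (Y224.TS.LT S) U := (h.irS hZ).2 hU
  have hst' : ∀ X ∈ Y224.TS.LT S, ∀ u ∈ U, X *ᵥ u ∈ U := hU'.2.1
  have hst : ∀ u ∈ U, D *ᵥ u ∈ U := fun u hu => hU'.2.1 D (LT_gen hD) u hu
  obtain ⟨d1, d2⟩ := h.dims hZ hD hσ hU.2.1
  rw [hpd] at d1
  rw [hqd] at d2
  have htr : LinearMap.trace ℂ U (resM D U hst) = (p : ℂ) - (q : ℂ) := by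
    rw [trace_res (h.sq D hD) hst, d1, d2]
  have hDD : ∀ D ∈ S, ph (Fin G ⊕ Fin G) D * ph (Fin G ⊕ Fin G) D = 1 := fun D hD => by
    rw [← map_mul, h.sq D hD, map_one]
  have hn : finrank ℂ U = p + q := by
    rw [← d1, ← d2]
    exact (es_add (hDD D hD) hst).symm
  obtain ⟨x, hx, h1, h2, h3⟩ := L.exists_rk1_ne (𝔤 := resL (Y224.TS.LT S) U)
    (resL_br (fun X hX Y hY => LT_br hX hY) U) (res_irr h.sq hU')
    {X | ∃ D' ∈ S, ∃ hD' : ∀ u ∈ U, D' *ᵥ u ∈ U, X = resM D' U hD'}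
    (by
      rintro _ ⟨D', hD', h4, rfl⟩
      exact ⟨D', LT_gen hD', fun u => rfl⟩)
    (by
      rintro _ ⟨D', hD', h4, rfl⟩
      exact res_sq (h.sq D' hD') h4)
    (fun L hL1 hL2 => res_ind hst' L (fun D hD => hL1 _ ⟨D, hD, _, rfl⟩) hL2)
    (D := resM D U hst) ⟨D, LT_gen hD, fun u => rfl⟩ (res_sq (h.sq D hD) hst) htr hn hp hq hne hnb
    (by
      rintro _ ⟨D', hD', h4, rfl⟩ a' b' ht hn' ha' hb'
      obtain ⟨τ, hτ'⟩ := h.tr D' hD'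
      obtain ⟨e1, e2⟩ := h.dims hZ hD' hτ' hU.2.1
      have e3 := es_add (hDD D' hD') h4
      rw [trace_res (h.sq D' hD') h4, e1, e2] at ht
      rw [e1, e2, hn] at e3
      have e4 : (pd Z (cjS τ.symm U) : ℂ) + (qd Z (cjS τ.symm U) : ℂ) = (a' : ℂ) + b' := by
        exact_mod_cast e3.trans hn'.symm
      have e5 : pd Z (cjS τ.symm U) = a' := by
        have e6 : (pd Z (cjS τ.symm U) : ℂ) = (a' : ℂ) := by
          linear_combination (1 / 2 : ℂ) * ht + (1 / 2 : ℂ) * e4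
        exact_mod_cast e6
      have e6 : qd Z (cjS τ.symm U) = b' := by omega
      have e7 := hτ τ.symm (by rw [e5]; exact ha') (by rw [e6]; exact hb')
      rwa [e5, e6] at e7)
  exact ⟨1, Or.inl rfl, rk_of_res h.sq hD hst (Or.inl rfl) hx (by rw [one_smul, h1])
    (by rw [one_smul, h2]) h3⟩

omit hD in
/-- Elements of rank one for a maximal subfield. -/
theorem rk1T_ne (hs : IsSimpleAV Z) (hg : 0 < G)
    {M : Matrix (Fin G ⊕ Fin G) (Fin G ⊕ Fin G) ℚ} (k : MF Z M)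
    {s0 : ℂ} (hp : 0 < pd Z (VE M s0)) (hq : 0 < qd Z (VE M s0))
    (hne : pd Z (VE M s0) ≠ qd Z (VE M s0)) (hnb : NotBin (pd Z (VE M s0)) (qd Z (VE M s0)))
    (hc : ∀ s : ℂ, aeval s (minpoly ℚ M) = 0 → 0 < pd Z (VE M s) → 0 < qd Z (VE M s) →
      ¬pd Z (VE M s0) + qd Z (VE M s0) ∣
        (pd Z (VE M s0)).gcd (qd Z (VE M s0)) * (pd Z (VE M s)).gcd (qd Z (VE M s))) :
    Rk1T S U := by
  obtain ⟨s, T, hs0, hne', hT, hi, hTU⟩ := k.proj hZ hs hg hU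
  refine Rk1T.of_map h hZ hU hT hi ?_
  rw [hTU]
  have hne0 : VE M s0 ≠ ⊥ := by
    intro h1
    have h2 : pd Z (VE M s0) ≤ finrank ℂ (VE M s0) := Submodule.finrank_mono inf_le_left
    rw [h1, finrank_bot] at h2
    rw [h1] at hp
    omega
  obtain ⟨v, hv, hv0⟩ := Submodule.exists_mem_ne_zero_of_ne_bot hne'
  obtain ⟨w, hw, hw0⟩ := Submodule.exists_mem_ne_zero_of_ne_bot hne0
  obtain ⟨σ, hσ⟩ := eig_conj hZ hs k.comm hw0 (mem_VE.1 hw) hv0 (mem_VE.1 hv)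
  have e1 : cjS σ.symm (VE M s) = VE M s0 := by
    rw [VE_cj, ← hσ]
    congr 1
    exact σ.symm_apply_apply _
  obtain ⟨D, hD, hDσ⟩ := h.ex σ
  refine (rk1_ne h hZ hD (k.irr hZ hs hne') hDσ (congrArg (pd Z) e1) (congrArg (qd Z) e1) hp hq
    hne hnb fun τ h1 h2 => ?_).rk1T hD
  rw [VE_cj] at h1 h2 ⊢
  exact hc (τ s) (root_conj hs0 τ) h1 h2

end

end Pool.Agent.K9h17.G
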