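import Mathlib
import Pool.Agent.Y90.Clo
import Pool.Agent.H204R3.GP.TateG

/-!
# Products of pairs
-/

set_option linter.unusedSectionVars false

namespace Pool.Agent.K9h17.G

open Module Pool.Agent.Y90 Pool.Agent.H204R3.SP Pool.Agent.H204R3.GP

noncomputable section

variable {K : Type*} [Field K] {X : Type*} [AddCommGroup X] [Module K X]

/-- The products of bilinear forms with the property `p`, over the matchings. -/
def GP (p : (X →ₗ[K] X →ₗ[K] K) → Prop) (κ : Type) :
    Set (MultilinearMap K (fun _ : κ => X) K) :=
  {φ | ∃ (A : Type) (_ : Fintype A) (e : A × Fin 2 ≃ κ) (B : A → (X →ₗ[K] X →ₗ[K] K)),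
    (∀ a, p (B a)) ∧ ∀ v, φ v = ∏ a, B a (v (e (a, 0))) (v (e (a, 1)))}

/-- Their span. -/
def NP (p : (X →ₗ[K] X →ₗ[K] K) → Prop) (κ : Type) [Finite κ] :
    Submodule K (MultilinearMap K (fun _ : κ => X) K) := Submodule.span K (GP p κ)

variable {p : (X →ₗ[K] X →ₗ[K] K) → Prop}

theorem gp_mul {κ κ' κ'' : Type} (e : κ ⊕ κ' ≃ κ'')
    {φ : MultilinearMap K (fun _ : κ => X) K} {φ' : MultilinearMap K (fun _ : κ' => X) K}
    (h : φ ∈ GP p κ) (h' : φ' ∈ GP p κ') : (prd φ φ').domDomCongr e ∈ GP p κ'' := by
  obtain ⟨A, iA, f, B, hB, hφ⟩ := h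
  obtain ⟨A', iA', f', B', hB', hφ'⟩ := h'
  refine ⟨A ⊕ A', inferInstance, (Equiv.sumProdDistrib A A' (Fin 2)).trans
    ((Equiv.sumCongr f f').trans e), Sum.elim B B', ?_, fun v => ?_⟩
  · rintro (a | a)
    · exact hB a
    · exact hB' a
  · rw [MultilinearMap.domDomCongr_apply, prd_apply, hφ, hφ', Fintype.prod_sum_type]
    rfl

theorem clo_NP : Clo (NP p) := by
  constructor
  · intro κ _ _ φ
    have h1 : φ = φ (fun k => isEmptyElim k) •
        MultilinearMap.constOfIsEmpty K (fun _ : κ => X) (1 : K) := by
      refine MultilinearMap.ext fun v => ?_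
      rw [MultilinearMap.smul_apply, MultilinearMap.constOfIsEmpty_apply, Function.const_apply,
        smul_eq_mul, mul_one]
      congr 1
      exact Subsingleton.elim _ _
    rw [h1]
    refine Submodule.smul_mem _ _ (Submodule.subset_span ⟨Empty, inferInstance,
      Equiv.equivOfIsEmpty _ _, fun a => a.elim, fun a => a.elim, fun v => ?_⟩)
    rw [MultilinearMap.constOfIsEmpty_apply, Function.const_apply, Finset.univ_eq_empty,
      Finset.prod_empty]
  · intro κ κ' κ'' _ _ _ e φ φ' ψ hφ hφ' hψ
    have h1 : ψ = (prd φ φ').domDomCongr e := by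
      refine MultilinearMap.ext fun v => ?_
      rw [hψ, MultilinearMap.domDomCongr_apply, prd_apply]
    rw [h1]
    clear h1 hψ ψ
    unfold NP at hφ hφ' ⊢
    induction hφ using Submodule.span_induction with
    | mem φ hφ =>
      induction hφ' using Submodule.span_induction with
      | mem φ' hφ' => exact Submodule.subset_span (gp_mul e hφ hφ')
      | zero =>
        have h2 : (prd φ (0 : MultilinearMap K (fun _ : κ' => X) K)).domDomCongr e = 0 := by
          refine MultilinearMap.ext fun v => ?_
          rw [MultilinearMap.domDomCongr_apply, prd_apply, MultilinearMap.zero_apply, mul_zero]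
          rfl
        rw [h2]
        exact Submodule.zero_mem _
      | add x y _ _ hx hy =>
        have h2 : (prd φ (x + y)).domDomCongr e = (prd φ x).domDomCongr e +
            (prd φ y).domDomCongr e := by
          refine MultilinearMap.ext fun v => ?_
          rw [MultilinearMap.add_apply, MultilinearMap.domDomCongr_apply,
            MultilinearMap.domDomCongr_apply, MultilinearMap.domDomCongr_apply, prd_apply,
            prd_apply, prd_apply, MultilinearMap.add_apply, mul_add]
        rw [h2]
        exact Submodule.add_mem _ hx hy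
      | smul c x _ hx =>
        have h2 : (prd φ (c • x)).domDomCongr e = c • (prd φ x).domDomCongr e := by
          refine MultilinearMap.ext fun v => ?_
          rw [MultilinearMap.smul_apply, MultilinearMap.domDomCongr_apply,
            MultilinearMap.domDomCongr_apply, prd_apply,
            prd_apply, MultilinearMap.smul_apply, smul_eq_mul, smul_eq_mul]
          ring
        rw [h2]
        exact Submodule.smul_mem _ _ hx
    | zero =>
      have h2 : (prd (0 : MultilinearMap K (fun _ : κ => X) K) φ').domDomCongr e = 0 := by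
        refine MultilinearMap.ext fun v => ?_
        rw [MultilinearMap.domDomCongr_apply, prd_apply, MultilinearMap.zero_apply, zero_mul]
        rfl
      rw [h2]
      exact Submodule.zero_mem _
    | add x y _ _ hx hy =>
      have h2 : (prd (x + y) φ').domDomCongr e = (prd x φ').domDomCongr e +
          (prd y φ').domDomCongr e := by
        refine MultilinearMap.ext fun v => ?_
        rw [MultilinearMap.add_apply, MultilinearMap.domDomCongr_apply,
          MultilinearMap.domDomCongr_apply, MultilinearMap.domDomCongr_apply, prd_apply,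
          prd_apply, prd_apply, MultilinearMap.add_apply, add_mul]
      rw [h2]
      exact Submodule.add_mem _ hx hy
    | smul c x _ hx =>
      have h2 : (prd (c • x) φ').domDomCongr e = c • (prd x φ').domDomCongr e := by
        refine MultilinearMap.ext fun v => ?_
        rw [MultilinearMap.smul_apply, MultilinearMap.domDomCongr_apply,
          MultilinearMap.domDomCongr_apply, prd_apply,
          prd_apply, MultilinearMap.smul_apply, smul_eq_mul, smul_eq_mul]
        ring
      rw [h2]
      exact Submodule.smul_mem _ _ hx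

/-- The pairs. -/
theorem bil2_NP {b : X →ₗ[K] X →ₗ[K] K} (hb : p b) : bil2 b ∈ NP p (Fin 2) := by
  refine Submodule.subset_span ⟨Unit, inferInstance, Equiv.punitProd (Fin 2), fun _ => b,
    fun _ => hb, fun v => ?_⟩
  rw [bil2_apply, Fintype.prod_unique]
  rfl

/-- Change of the space. -/
theorem NP_comp {X' : Type*} [AddCommGroup X'] [Module K X']
    {p' : (X' →ₗ[K] X' →ₗ[K] K) → Prop} (T : X' →ₗ[K] X)
    (hp : ∀ b, p b → p' (b.compl₁₂ T T)) {κ : Type} [Finite κ]
    {φ : MultilinearMap K (fun _ : κ => X) K} (h : φ ∈ NP p κ) :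
    φ.compLinearMap (fun _ => T) ∈ NP p' κ := by
  unfold NP at h ⊢
  induction h using Submodule.span_induction with
  | mem φ hφ =>
    obtain ⟨A, iA, e, B, hB, hφ⟩ := hφ
    refine Submodule.subset_span ⟨A, iA, e, fun a => (B a).compl₁₂ T T, fun a => hp _ (hB a),
      fun v => ?_⟩
    rw [MultilinearMap.compLinearMap_apply, hφ]
    rfl
  | zero =>
    have h1 : (0 : MultilinearMap K (fun _ : κ => X) K).compLinearMap (fun _ => T) = 0 := rfl
    rw [h1]
    exact Submodule.zero_mem _
  | add x y _ _ hx hy => exact Submodule.add_mem _ hx hy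
  | smul c x _ hx => exact Submodule.smul_mem _ _ hx

/-- The products in the standard form. -/
theorem NP_PT {Γ : Type*} [Group Γ] (ρ : Representation K Γ X) (χ : Γ →* K) {m : ℕ}
    {φ : MultilinearMap K (fun _ : Fin m × Fin 2 => X) K}
    (h : φ ∈ NP (IsTate2 ρ χ) (Fin m × Fin 2)) : φ ∈ Submodule.span K (PT ρ χ m) := by
  refine Submodule.span_mono ?_ h
  rintro φ ⟨A, iA, e, B, hB, hφ⟩
  have hc : Fintype.card A = Fintype.card (Fin m) := by
    have h1 := Fintype.card_congr e
    rw [Fintype.card_prod, Fintype.card_prod, Fintype.card_fin, Fintype.card_fin] at h1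
    rw [Fintype.card_fin]
    omega
  let f : A ≃ Fin m := Fintype.equivOfCardEq hc
  refine ⟨(Equiv.prodCongr f.symm (Equiv.refl _)).trans e, fun l => B (f.symm l),
    fun l => hB _, ?_⟩
  refine MultilinearMap.ext fun v => ?_
  rw [hφ]
  change _ = ∏ l : Fin m, B (f.symm l) (v (e (f.symm l, 0))) (v (e (f.symm l, 1)))
  exact (Equiv.prod_comp f.symm (fun a => B a (v (e (a, 0))) (v (e (a, 1))))).symm

end

end Pool.Agent.K9h17.G
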