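import Mathlib
import Pool.Agent.Y224.TS.D8
import Pool.Agent.K9h17.G.Np

/-!
# The invariant bilinear forms are Tate forms
-/

set_option linter.unusedSectionVars false

namespace Pool.Agent.K9h17.G

open Matrix Module Pool.Agent.W437.HC Pool.Agent.W437.HD Pool.Agent.W548.Odd Pool.Agent.Y90
open Pool.Agent.H204R3.SP Pool.Agent.H204R3.GP TensorProduct Pool.Agent.Y224.TS
open Pool.Agent.Y224.TS.St (IsHodgeTate IsTateModule)
open Pool.Agent.W437.HP (cK cK_mul cK_one)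

noncomputable section

variable {H : Type} [AddCommGroup H] [Module ℚ H] {K : Type} [Field K] [CharZero K] [Algebra K ℂ]
  {T : Type} [AddCommGroup T] [Module ℂ T] {per : H →+ T} {Γ : Type} [Group Γ]
  {ρ : Representation K Γ (K ⊗[ℚ] H)} {χ : Γ →* K} {G : ℕ} {Z : Matrix (Fin G) (Fin G) ℂ}
  {E : H → H → ℚ}

/-- The form is killed by the Lie algebra of the period matrix. -/
def KB (Z : Matrix (Fin G) (Fin G) ℂ)
    (β : (Fin G ⊕ Fin G → ℂ) →ₗ[ℂ] (Fin G ⊕ Fin G → ℂ) →ₗ[ℂ] ℂ) : Prop :=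
  ∀ X ∈ LZ Z, ∀ u v, β (X *ᵥ u) v + β u (X *ᵥ v) = 0

/-- The matrix of a bilinear form. -/
theorem KB.mat (hZ : PM Z) {β : (Fin G ⊕ Fin G → ℂ) →ₗ[ℂ] (Fin G ⊕ Fin G → ℂ) →ₗ[ℂ] ℂ}
    (h : KB Z β) : ∃ P : Matrix (Fin G ⊕ Fin G) (Fin G ⊕ Fin G) ℂ,
      (∀ X ∈ LZ Z, P * X = X * P) ∧ ∀ u v, β u v = om G (P *ᵥ u) v := by
  have hinj : Function.Injective (om G) := by
    rw [injective_iff_map_eq_zero]
    intro u hu
    exact om_nd u fun v => by rw [hu]; rfl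
  have hsurj : Function.Surjective (om G) :=
    (LinearMap.injective_iff_surjective_of_finrank_eq_finrank
      Subspace.dual_finrank_eq.symm).1 hinj
  let e : (Fin G ⊕ Fin G → ℂ) ≃ₗ[ℂ] Dual ℂ (Fin G ⊕ Fin G → ℂ) :=
    LinearEquiv.ofBijective (om G) ⟨hinj, hsurj⟩
  let T : (Fin G ⊕ Fin G → ℂ) →ₗ[ℂ] (Fin G ⊕ Fin G → ℂ) := e.symm.toLinearMap.comp β
  have hT : ∀ u v, om G (T u) v = β u v := by
    intro u v
    have h1 : e (T u) = β u := e.apply_symm_apply _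
    exact LinearMap.congr_fun h1 v
  have hQ : ∀ v, LinearMap.toMatrix' T *ᵥ v = T v := fun v => by
    rw [← Matrix.toLin'_apply, Matrix.toLin'_toMatrix']
  refine ⟨LinearMap.toMatrix' T, fun X hX => ?_, fun u v => by rw [hQ, hT]⟩
  apply Matrix.toLin'.injective
  refine LinearMap.ext fun w => ?_
  rw [Matrix.toLin'_apply, Matrix.toLin'_apply, ← mulVec_mulVec, ← mulVec_mulVec, hQ, hQ,
    ← sub_eq_zero]
  apply om_nd
  intro v
  have h2 := h X hX w v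
  have h3 := hZ.om_sp hX (T w) v
  rw [← hT, ← hT] at h2
  rw [map_sub, LinearMap.sub_apply]
  linear_combination h2 - h3

/-- **The invariant bilinear forms are Tate forms.** -/
theorem tate2_of_kill (b : Basis (Fin G ⊕ Fin G) ℚ H) (hZ : PM Z)
    (hb : ∀ p q, E (b q) (b p) = Om G ℚ p q)
    (hC : Cht (per.comp b.equivFun.symm.toLinearMap.toAddMonoidHom) (JR Z))
    (hρ : IsTateModule per E ρ χ)
    {β : (Fin G ⊕ Fin G → ℂ) →ₗ[ℂ] (Fin G ⊕ Fin G → ℂ) →ₗ[ℂ] ℂ} (hβ : KB Z β) :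
    IsTate2 (bcr ρ ℂ) (bcc χ ℂ)
      (β.compl₁₂ (eY K b).toLinearMap (eY K b).toLinearMap) := by
  obtain ⟨P, hP, hPβ⟩ := hβ.mat hZ
  obtain ⟨m, c, Q, hQ, hPQ⟩ := commutant_expand gal_LZ hP
  have : FiniteDimensional ℚ H := Module.Finite.of_basis b
  obtain ⟨Δ, hΔ, hend⟩ := exists_sub hρ
  obtain ⟨ω, hω, hωρ⟩ := hρ.weil
  refine ⟨Δ, hΔ, fun g hg u v => ?_⟩
  have ha : ∀ j, ∃ a : H →ₗ[ℚ] H, Pool.Agent.Y90.St.IsHom per per a ∧ LinearMap.toMatrix b b a = Q j := by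
    intro j
    refine ⟨Matrix.toLin b b (Q j), ?_, LinearMap.toMatrix_toLin _ _ _⟩
    rw [hom_iff b hC, LinearMap.toMatrix_toLin]
    exact hQ j
  choose a ha1 ha2 using ha
  have hexp : ∀ x y : ℂ ⊗[K] (K ⊗[ℚ] H), β (eY K b x) (eY K b y) =
      ∑ j, c j * bcb ℂ ω y (((a j).baseChange K).baseChange ℂ x) := by
    intro x y
    rw [hPβ, hPQ, Matrix.sum_mulVec, map_sum, LinearMap.sum_apply]
    refine Finset.sum_congr rfl fun j _ => ?_
    rw [smul_mulVec, map_smul, LinearMap.smul_apply, smul_eq_mul, weil_om b hb hω, ← ha2,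
      ← mt_bc2 (K := K), mt_mulVec]
  rw [LinearMap.compl₁₂_apply, LinearMap.compl₁₂_apply]
  change β (eY K b (bcr ρ ℂ g u)) (eY K b (bcr ρ ℂ g v)) =
    bcc χ ℂ g * β (eY K b u) (eY K b v)
  rw [hexp, hexp, Finset.mul_sum]
  refine Finset.sum_congr rfl fun j _ => ?_
  have h1 : ((a j).baseChange K).baseChange ℂ (bcr ρ ℂ g u) =
      bcr ρ ℂ g (((a j).baseChange K).baseChange ℂ u) :=
    (bcr_comm (hend (a j) (ha1 j) g hg) u).symm
  rw [h1, bcb_inv ρ χ ω hωρ]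
  ring

end

end Pool.Agent.K9h17.G
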