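import Mathlib
import Pool.Agent.N183.U5.Glb
import Pool.Agent.K9h17.G.T2

/-!
# Tate classes are generated in degree two
-/

set_option linter.unusedSectionVars false

namespace Pool.Agent.K9h17.G

open Matrix Module Pool.Agent.W437.HC Pool.Agent.W437.HD Pool.Agent.W548.Odd Pool.Agent.W522.U
open Pool.Agent.H204R3.SP Pool.Agent.H204R3.GP Pool.Agent.Y90 Pool.Agent.Y224.TS TensorProduct
open Pool.Agent.Y224.TS.St (IsHodgeTate IsTateModule)
open Pool.Agent.W437.HP (cK cK_mul cK_one)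
open Pool.Agent.R915 (CentM commL_of VE mem_VE VE_cj VE_stab)
open Pool.Agent.N183.TS Pool.Agent.N183.U5

noncomputable section

variable {G : ℕ} {Z : Matrix (Fin G) (Fin G) ℂ}
  {S : Set (Matrix (Fin G ⊕ Fin G) (Fin G ⊕ Fin G) ℂ)}

/-- Nondegenerate centre. -/
def NdZ (Z : Matrix (Fin G) (Fin G) ℂ) (M : Matrix (Fin G ⊕ Fin G) (Fin G ⊕ Fin G) ℚ) : Prop :=
  ∀ c : ℂ → ℚ, (∀ s, c (cc s) = -c s) →
    (∀ τ : ℂ ≃+* ℂ, ∑ᶠ s, c s * (pd Z (VE M (τ s)) : ℚ) = 0) → ∀ s, pd Z (VE M s) ≠ 0 → c s = 0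

section main

variable (h : TD Z S) (hZ : PM Z) (hs : Gd Z S) {M : Matrix (Fin G ⊕ Fin G) (Fin G ⊕ Fin G) ℚ}
  (k : CG Z M) (nd : NdZ Z M)
include h hZ hs k nd

/-- Invariant forms. -/
theorem inv_NP {m : ℕ}
    (φ : MultilinearMap ℂ (fun _ : Fin m × Fin 2 => Fin G ⊕ Fin G → ℂ) ℂ)
    (hφ : ∀ (g : Gam (GG (Y224.TS.LT S))) v, φ (fun k => RG (GG (Y224.TS.LT S)) g (v k)) = φ v) :
    φ ∈ NP (KB Z) (Fin m × Fin 2) := by
  have hSI : ∀ {U}, W522.U.SI (RG (GG (Y224.TS.LT S))) U ↔ IrS (LZ Z) U := fun {U} => h.si hZ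
  have hp := gz_proj h.genI h.cr
  obtain ⟨s, W, hW, hWW, hall⟩ := exists_reps hp
  obtain ⟨st, hst, hDu, hDu'⟩ := exists_st (χ := 1) hp (om G) om_nd (h.om' hZ) W hW hWW hall
  refine R915.forms_mem' (χ := 1) (fun Δ hΔ => fi_top Δ hΔ) (om G) om_nd (h.om' hZ) ?_ ?_ ?_ hp
    W hW hWW hall st hst hDu hDu' (NP (KB Z)) clo_NP ?_ ?_ φ ?_
  · intro U hU hn
    exact (hs.r _ (hSI.1 hU) hn).unip h
  · intro U hU hn
    exact h.line hZ (hSI.1 hU) hn
  · intro U U' hU hU' hn _ ψ hT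
    exact hs.t U U' (hSI.1 hU) (hSI.1 hU') hn ψ hT
  · intro b hb
    refine bil2_NP ?_
    refine (h.bil b (fun X hX => hZ.om_sp hX)).1 (fun X hX u v => ?_)
    exact (gz_bil h.genI stab_top stab_top b).1 (fun g u _ v _ => by
      rw [hb, MonoidHom.one_apply, one_mul]) X hX u trivial v trivial
  · intro a ha hag ι _ _ f p hp ψ hψ
    have hW' : ∀ i, IrS (LZ Z) (W i) := fun i => hSI.1 (hW i)
    have ha0 : ∀ i, a i = 0 := by
      refine fun i => k.zero hZ nd W hW' (fun i j hT => ?_) st hst (fun i => ?_) a ha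
        (h.tr_of_det hZ W hW' a hag) i
      · exact hWW i j ((h.tw hZ (hW' i).2.1).2 hT)
      · exact (h.du hZ (hW' i).2.1 (hW' _).2.1).1 (hDu i)
    have : IsEmpty (Σ q : (Σ i, Fin (a i).toNat), ι q) := by
      refine ⟨fun x => ?_⟩
      have h1 : (a x.1.1).toNat ≠ 0 := (Nat.zero_lt_of_lt x.1.2.2).ne'
      exact h1 (by rw [ha0]; rfl)
    exact clo_NP.unit _ _
  · refine ⟨⊤, inferInstance, fun g _ v => ?_⟩
    rw [MonoidHom.one_apply, one_pow, one_mul]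
    exact hφ g v

/-- Forms killed by the involutions are combinations of products of pairs. -/
theorem kill_NP {m : ℕ}
    (φ : MultilinearMap ℂ (fun _ : Fin m × Fin 2 => Fin G ⊕ Fin G → ℂ) ℂ)
    (hφ : ∀ D ∈ S, Kills (ph (Fin G ⊕ Fin G) D) φ) : φ ∈ NP (KB Z) (Fin m × Fin 2) := by
  refine inv_NP h hZ hs k nd φ fun g v => ?_
  refine inv_gam φ (fun D hD _ => ?_) g v
  obtain ⟨X, hX, rfl⟩ := exists_GG hD
  exact kills_LT hφ hX

end main

variable {H : Type} [AddCommGroup H] [Module ℚ H] {K : Type} [Field K] [CharZero K] [Algebra K ℂ]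
  {T : Type} [AddCommGroup T] [Module ℂ T] {per : H →+ T} {Γ : Type} [Group Γ]
  {ρ : Representation K Γ (K ⊗[ℚ] H)} {χ : Γ →* K} {E : H → H → ℚ}

/-- **Tate classes are generated in degree two.** -/
theorem generated (b : Basis (Fin G ⊕ Fin G) ℚ H) (hZ : PM Z)
    (hb : ∀ p q, E (b q) (b p) = Om G ℚ p q)
    (hC : Cht (per.comp b.equivFun.symm.toLinearMap.toAddMonoidHom) (JR Z))
    (hρ : IsTateModule per E ρ χ) (h : TD Z (SH per ρ χ b)) (hs : Gd Z (SH per ρ χ b))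
    {M : Matrix (Fin G ⊕ Fin G) (Fin G ⊕ Fin G) ℚ} (k : CG Z M) (nd : NdZ Z M) :
    TateGeneratedInDegreeTwo ρ χ := by
  have : FiniteDimensional ℚ H := Module.Finite.of_basis b
  refine generated_of_ext (V := K ⊗[ℚ] H) ρ χ ℂ fun m φ hφ => ?_
  refine NP_PT (bcr ρ ℂ) (bcc χ ℂ) ?_
  let φ' : MultilinearMap ℂ (fun _ : Fin m × Fin 2 => Fin G ⊕ Fin G → ℂ) ℂ :=
    φ.compLinearMap fun _ => (eY K b).symm.toLinearMap
  have h1 : φ = φ'.compLinearMap fun _ => (eY K b).toLinearMap := by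
    refine MultilinearMap.ext fun v => ?_
    change φ v = φ fun k => (eY K b).symm (eY K b (v k))
    simp only [LinearEquiv.symm_apply_apply]
  rw [h1]
  refine NP_comp (p := KB Z) _ (fun β hβ => tate2_of_kill b hZ hb hC hρ hβ) ?_
  refine kill_NP h hZ hs k nd φ' ?_
  rintro _ ⟨σ, x, hx, rfl⟩ v
  obtain ⟨w, rfl⟩ : ∃ w : Fin m × Fin 2 → ℂ ⊗[K] (K ⊗[ℚ] H), v = fun k => eY K b (w k) :=
    ⟨fun k => (eY K b).symm (v k), by
      funext k
      exact ((eY K b).apply_symm_apply (v k)).symm⟩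
  have h2 := ht_lie hx m _ hφ w
  rw [← h2]
  refine Finset.sum_congr rfl fun k _ => ?_
  change φ _ = φ _
  congr 1
  funext l
  change (eY K b).symm _ = _
  by_cases hl : l = k
  · subst hl
    rw [Function.update_self, Function.update_self, LinearEquiv.symm_apply_eq]
    exact mt_mulVec b _ (w l)
  · rw [Function.update_of_ne hl, Function.update_of_ne hl, LinearEquiv.symm_apply_apply]

end

end Pool.Agent.K9h17.G
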