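import Mathlib
import Pool.Agent.R915.G6
import Pool.Agent.K9h17.S.Stm

/-!
# Isogenies
-/

set_option linter.unusedSectionVars false

namespace Pool.Agent.K9h17.G

open Module Pool.Agent.Y90 Pool.Agent.R915 Pool.Agent.N183.U5 Pool.Agent.K9h17.S Polynomial

noncomputable section

/-- The conjugate by an isomorphism. -/
abbrev cjg {X Y : AV} (e : X.H ≃ₗ[ℚ] Y.H) : Module.End ℚ Y.H ≃ₐ[ℚ] Module.End ℚ X.H :=
  e.symm.conjAlgEquiv ℚ

theorem cjg_apply {X Y : AV} (e : X.H ≃ₗ[ℚ] Y.H) (a : Module.End ℚ Y.H) :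
    cjg e a = e.symm.toLinearMap.comp (a.comp e.toLinearMap) := LinearMap.ext fun _ => rfl

theorem hom_cjg {X Y : AV} {e : X.H ≃ₗ[ℚ] Y.H} (he : IsHom X Y e.toLinearMap)
    {a : Module.End ℚ Y.H} (ha : IsHom Y Y a) : IsHom X X (cjg e a) := by
  rw [cjg_apply]
  exact IsHom.comp' (hom_symm e he) (IsHom.comp' ha he)

theorem cjg_symm {X Y : AV} (e : X.H ≃ₗ[ℚ] Y.H) (b : Module.End ℚ X.H) :
    (cjg e).symm b = cjg e.symm b := by
  rw [AlgEquiv.symm_apply_eq]
  refine LinearMap.ext fun v => ?_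
  rw [cjg_apply, cjg_apply]
  change b v = e.symm (e (b (e.symm (e v))))
  rw [e.symm_apply_apply, e.symm_apply_apply]

/-- Isogenies preserve maximal subfields. -/
theorem maxField_iso {X Y : AV} {e : X.H ≃ₗ[ℚ] Y.H} (he : IsHom X Y e.toLinearMap)
    {a : Module.End ℚ Y.H} (k : MaxField Y a) : MaxField X (cjg e a) := by
  refine ⟨hom_cjg he k.1, fun b hb hba => ?_⟩
  have hes : IsHom Y X e.symm.toLinearMap := hom_symm e he
  have h1 : IsHom Y Y ((cjg e).symm b) := by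
    rw [cjg_symm]
    exact hom_cjg hes hb
  have h2 := k.2 _ h1 (by
    apply (cjg e).injective
    rw [map_mul, map_mul, AlgEquiv.apply_symm_apply, hba])
  rw [Algebra.adjoin_singleton_eq_range_aeval] at h2 ⊢
  obtain ⟨p, hp⟩ := h2
  refine ⟨p, ?_⟩
  change aeval a p = _ at hp
  have h3 := Polynomial.aeval_algHom_apply (cjg e).toAlgHom a p
  change aeval (cjg e a) p = cjg e (aeval a p) at h3
  change aeval (cjg e a) p = b
  rw [h3, hp, AlgEquiv.apply_symm_apply]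

theorem minpoly_cjg {X Y : AV} (e : X.H ≃ₗ[ℚ] Y.H) (a : Module.End ℚ Y.H) :
    minpoly ℚ (cjg e a) = minpoly ℚ a := minpoly.algEquiv_eq (cjg e) a

/-- Isogenies and the tangent spaces. -/
theorem exists_tan {X Y : AV} {e : X.H ≃ₗ[ℚ] Y.H} (he : IsHom X Y e.toLinearMap)
    {a : Module.End ℚ Y.H} {Ψ : Module.End ℂ Y.T} (h : ∀ v, Ψ (Y.per v) = Y.per (a v)) :
    ∃ Ψ' : Module.End ℂ X.T, (∀ v, Ψ' (X.per v) = X.per (cjg e a v)) ∧
      ∀ t : ℂ, finrank ℂ (Ψ'.eigenspace t) = finrank ℂ (Ψ.eigenspace t) := by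
  obtain ⟨Φ, hΦ⟩ := he
  have h5 : Function.Surjective Φ := tan_surj hΦ e.surjective
  have h6 : finrank ℂ X.T = finrank ℂ Y.T := by
    have h3 := e.finrank_eq
    rw [X.rank, Y.rank] at h3
    omega
  have h7 : Function.Injective Φ := (LinearMap.injective_iff_surjective_of_finrank_eq_finrank h6).2 h5
  let E : X.T ≃ₗ[ℂ] Y.T := LinearEquiv.ofBijective Φ ⟨h7, h5⟩
  have hE : ∀ v, E (X.per v) = Y.per (e v) := fun v => hΦ v
  have hEs : ∀ w, E.symm (Y.per w) = X.per (e.symm w) := fun w => by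
    rw [LinearEquiv.symm_apply_eq, hE, e.apply_symm_apply]
  refine ⟨E.symm.toLinearMap.comp (Ψ.comp E.toLinearMap), fun v => ?_, fun t => ?_⟩
  · change E.symm (Ψ (E (X.per v))) = X.per (e.symm (a (e v)))
    rw [hE, h, hEs]
  · have h8 : Module.End.eigenspace (E.symm.toLinearMap.comp (Ψ.comp E.toLinearMap)) t =
        (Ψ.eigenspace t).map E.symm.toLinearMap := by
      ext x
      rw [Module.End.mem_eigenspace_iff, Submodule.mem_map]
      constructor
      · intro hx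
        refine ⟨E x, ?_, E.symm_apply_apply x⟩
        rw [Module.End.mem_eigenspace_iff]
        change E.symm (Ψ (E x)) = t • x at hx
        rw [LinearEquiv.symm_apply_eq, map_smul] at hx
        exact hx
      · rintro ⟨y, hy, rfl⟩
        rw [Module.End.mem_eigenspace_iff] at hy
        change E.symm (Ψ (E (E.symm y))) = t • E.symm y
        rw [E.apply_symm_apply, hy, map_smul]
    rw [h8]
    exact LinearEquiv.finrank_map_eq E.symm _

/-- Isogenies preserve the class. -/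
theorem unbalanced_iso {X Y : AV} {e : X.H ≃ₗ[ℚ] Y.H} (he : IsHom X Y e.toLinearMap)
    (h : UnbalancedMult Y) : UnbalancedMult X := by
  obtain ⟨a, Ψ, s, p, q, k, hΨ, hs0, hp, hpq, hp0, hq0, hne, hnb, hc⟩ := h
  obtain ⟨Ψ', h1, h2⟩ := exists_tan he hΨ
  refine ⟨cjg e a, Ψ', s, p, q, maxField_iso he k, h1, ?_, ?_, ?_, hp0, hq0, hne, hnb, ?_⟩
  · rw [minpoly_cjg]
    exact hs0
  · rw [h2, hp]
  · rw [minpoly_cjg, hpq, e.finrank_eq]
  · intro s' p' q' hs' hp' hpq' hp0' hq0'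
    rw [minpoly_cjg] at hs'
    rw [h2] at hp'
    exact hc s' p' q' hs' hp' hpq' hp0' hq0'

end

end Pool.Agent.K9h17.G
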