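import Mathlib
import Pool.Agent.K9h17.G.Iso
import Pool.Agent.K9h17.G.Mt

/-!
# Imaginary quadratic multiplication with different multiplicities
-/

set_option linter.unusedSectionVars false

namespace Pool.Agent.K9h17.G

open Module Pool.Agent.Y90 Pool.Agent.R915 Pool.Agent.N183.U5 Pool.Agent.K9h17.S Polynomial
open Pool.Agent.H204R3.GP TensorProduct Pool.Agent.N183.TS
open Pool.Agent.Y224.TS.St (IsTateModule)

noncomputable section

/-- Square roots of negative numbers. -/
theorem conj_root {d : ℚ} (hd : 0 < d) {s : ℂ} (hs : s * s = -(d : ℂ)) :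
    starRingEnd ℂ s = -s := by
  have h1 : starRingEnd ℂ s * starRingEnd ℂ s = s * s := by
    rw [← map_mul, hs, map_neg, map_ratCast]
  have h2 : (starRingEnd ℂ s - s) * (starRingEnd ℂ s + s) = 0 := by linear_combination h1
  rcases mul_eq_zero.1 h2 with h3 | h3
  · exfalso
    have h4 := Complex.conj_eq_iff_real.1 (sub_eq_zero.1 h3)
    obtain ⟨r, rfl⟩ := h4
    have h5 : ((r * r : ℝ) : ℂ) = ((-(d : ℝ) : ℝ) : ℂ) := by
      push_cast
      exact hs
    have h6 : r * r = -(d : ℝ) := by exact_mod_cast h5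
    have h7 : (0 : ℝ) < d := by exact_mod_cast hd
    nlinarith [mul_self_nonneg r]
  · exact eq_neg_of_add_eq_zero_left h3

theorem root_cases {d : ℚ} {s t : ℂ} (hs : s * s = -(d : ℂ)) (ht : t * t = -(d : ℂ)) :
    t = s ∨ t = -s := by
  have h2 : (t - s) * (t + s) = 0 := by linear_combination ht - hs
  rcases mul_eq_zero.1 h2 with h3 | h3
  · exact Or.inl (sub_eq_zero.1 h3)
  · exact Or.inr (eq_neg_of_add_eq_zero_left h3)

theorem root_ne {d : ℚ} (hd : 0 < d) {s : ℂ} (hs : s * s = -(d : ℂ)) : s ≠ 0 := by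
  rintro rfl
  rw [mul_zero] at hs
  have h1 : (d : ℂ) = 0 := neg_eq_zero.1 hs.symm
  have h2 : d = 0 := by exact_mod_cast h1
  exact hd.ne' h2

variable {X : AV} {d : ℚ} {h : Module.End ℚ X.H} (k : EndQuad X d h) {Ψ : Module.End ℂ X.T}
  (hΨ : ∀ v, Ψ (X.per v) = X.per (h v))
include k hΨ

/-- The square of the tangent map. -/
theorem tan_sq (x : X.T) : Ψ (Ψ x) = (-(d : ℂ)) • x := by
  have h1 : ∀ v, Ψ (Ψ (X.per v)) = (-(d : ℂ)) • X.per v := by
    intro v
    rw [hΨ, hΨ, k.sq, map_neg, neg_smul, neg_inj]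
    have h3 := map_ratCast_smul X.per ℚ ℂ d v
    rwa [Rat.cast_id] at h3
  have h2 : (⊤ : Submodule ℝ X.T) ≤
      LinearMap.ker (((Ψ * Ψ) + (d : ℂ) • 1).restrictScalars ℝ) := by
    rw [← X.span]
    refine Submodule.span_le.2 ?_
    rintro _ ⟨v, rfl⟩
    change Ψ (Ψ (X.per v)) + (d : ℂ) • X.per v = 0
    rw [h1, neg_smul, neg_add_cancel]
  have h3 : Ψ (Ψ x) + (d : ℂ) • x = 0 := h2 (Submodule.mem_top (x := x))
  rw [neg_smul]
  exact eq_neg_of_add_eq_zero_left h3

/-- The eigenvalues. -/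
theorem eig_sq {t : ℂ} (ht : finrank ℂ (Ψ.eigenspace t) ≠ 0) : t * t = -(d : ℂ) := by
  obtain ⟨x, hx, hx0⟩ := Submodule.exists_mem_ne_zero_of_ne_bot
    (p := Ψ.eigenspace t) (fun h1 => ht (by rw [h1, finrank_bot]))
  rw [Module.End.mem_eigenspace_iff] at hx
  have h1 := tan_sq k hΨ x
  rw [hx, map_smul, hx, smul_smul, ← sub_eq_zero, ← sub_smul] at h1
  exact sub_eq_zero.1 ((smul_eq_zero.1 h1).resolve_right hx0)

/-- The dimension. -/
theorem dim_add {s : ℂ} (hs : s * s = -(d : ℂ)) :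
    finrank ℂ (Ψ.eigenspace s) + finrank ℂ (Ψ.eigenspace (-s)) = finrank ℂ X.T := by
  have hs0 := root_ne k.pos hs
  refine Submodule.finrank_add_eq_of_isCompl ⟨?_, ?_⟩
  · rw [Submodule.disjoint_def]
    intro x h1 h2
    rw [Module.End.mem_eigenspace_iff] at h1 h2
    rw [h1] at h2
    have h3 : (2 * s) • x = 0 := by
      rw [two_mul, add_smul]
      nth_rewrite 2 [h2]
      rw [neg_smul, add_neg_cancel]
    exact (smul_eq_zero.1 h3).resolve_left (mul_ne_zero two_ne_zero hs0)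
  · rw [codisjoint_iff, eq_top_iff]
    intro x _
    have h1 := tan_sq k hΨ x
    rw [← hs] at h1
    have h2 : x = (2 * s)⁻¹ • (Ψ x + s • x) + (-(2 * s)⁻¹) • (Ψ x - s • x) := by
      have h3 : (2 * s)⁻¹ • (Ψ x + s • x) + (-(2 * s)⁻¹) • (Ψ x - s • x) =
          ((2 * s)⁻¹ * (2 * s)) • x := by module
      rw [h3, inv_mul_cancel₀ (mul_ne_zero two_ne_zero hs0), one_smul]
    rw [h2]
    refine Submodule.add_mem_sup (Submodule.smul_mem _ _ ?_) (Submodule.smul_mem _ _ ?_)
    · rw [Module.End.mem_eigenspace_iff, map_add, map_smul, h1, smul_add, smul_smul, add_comm]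
    · rw [Module.End.mem_eigenspace_iff, map_sub, map_smul, h1, smul_sub, smul_smul]
      module

omit hΨ in
/-- The minimal polynomial. -/
theorem minpoly_quad (hX : ∃ x : X.H, x ≠ 0) :
    minpoly ℚ h = Polynomial.X ^ 2 + C d := by
  obtain ⟨x, hx⟩ := hX
  have : Nontrivial X.H := ⟨x, 0, hx⟩
  have hm : (Polynomial.X ^ 2 + C d : ℚ[X]).Monic := monic_X_pow_add_C d two_ne_zero
  have hdeg : (Polynomial.X ^ 2 + C d : ℚ[X]).natDegree = 2 := natDegree_X_pow_add_C
  refine (minpoly.eq_of_irreducible_of_monic ?_ ?_ hm).symm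
  · rw [hm.irreducible_iff_roots_eq_zero_of_degree_le_three (by rw [hdeg]) (by rw [hdeg]; norm_num),
      Multiset.eq_zero_iff_forall_notMem]
    intro r hr
    have h1 := isRoot_of_mem_roots hr
    rw [IsRoot.def, eval_add, eval_pow, eval_X, eval_C] at h1
    have h2 := k.pos
    nlinarith [sq_nonneg r]
  · rw [map_add, map_pow, aeval_X, aeval_C]
    refine LinearMap.ext fun v => ?_
    rw [pow_two, LinearMap.add_apply, Module.End.mul_apply, k.sq, Module.algebraMap_end_apply]
    exact neg_add_cancel _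

omit hΨ in
theorem maxField_quad : MaxField X h := by
  refine ⟨k.hom, fun b hb _ => ?_⟩
  obtain ⟨x, y, hxy⟩ := k.max b hb
  have h1 : (1 : Module.End ℚ X.H) ∈ Algebra.adjoin ℚ {h} := one_mem _
  have h2 : h ∈ Algebra.adjoin ℚ {h} := Algebra.subset_adjoin (Set.mem_singleton _)
  have h3 : x • (1 : Module.End ℚ X.H) + y • h ∈ Algebra.adjoin ℚ {h} :=
    add_mem (Subalgebra.smul_mem _ h1 x) (Subalgebra.smul_mem _ h2 y)
  have h4 : b = x • (1 : Module.End ℚ X.H) + y • h := hxy
  rw [h4]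
  exact h3

omit hΨ in
theorem comm_quad (f : Module.End ℚ X.H) (hf : IsHom X X f) : f * h = h * f := by
  obtain ⟨x, y, hxy⟩ := k.max f hf
  rw [hxy]
  refine LinearMap.ext fun v => ?_
  rw [Module.End.mul_apply, Module.End.mul_apply]
  simp only [LinearMap.add_apply, LinearMap.smul_apply, LinearMap.id_apply, map_add, map_smul]

/-- The centre. -/
theorem centre_quad : IsCentreMult X fun t => finrank ℂ (Ψ.eigenspace t) :=
  ⟨h, Ψ, ⟨k.hom, comm_quad k, fun b hb _ => (maxField_quad k).2 b hb (comm_quad k b hb)⟩, hΨ,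
    fun _ => rfl⟩

variable {s : ℂ} (hs : s * s = -(d : ℂ)) {p q : ℕ} (hp : finrank ℂ (Ψ.eigenspace s) = p)
  (hq : finrank ℂ (Ψ.eigenspace (-s)) = q) (hp0 : 0 < p) (hq0 : 0 < q)
include hs hp hq hp0 hq0

theorem sep_quad : IsSeparated fun t => finrank ℂ (Ψ.eigenspace t) := by
  rintro s1 s2 ⟨τ0, h1, -⟩ ⟨τ, hτ⟩
  refine ⟨τ, hτ, Or.inl ?_⟩
  have h2 : s1 * s1 = -(d : ℂ) := by
    have h3 := eig_sq k hΨ h1
    apply τ0.injective
    rw [map_mul, h3, map_neg]
    exact congrArg Neg.neg (map_ratCast τ0 d).symm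
  have h3 : τ s1 * τ s1 = -(d : ℂ) := by
    rw [← map_mul, h2, map_neg]
    exact congrArg Neg.neg (map_ratCast τ d)
  change finrank ℂ (Ψ.eigenspace (τ s1)) ≠ 0 ∧
    finrank ℂ (Ψ.eigenspace (starRingEnd ℂ (τ s1))) ≠ 0
  rw [conj_root k.pos h3]
  rcases root_cases hs h3 with h4 | h4
  · rw [h4, hp, hq]
    exact ⟨hp0.ne', hq0.ne'⟩
  · rw [h4, neg_neg, hp, hq]
    exact ⟨hq0.ne', hp0.ne'⟩

theorem nondeg_quad (hne : p ≠ q) : IsNondegenerate fun t => finrank ℂ (Ψ.eigenspace t) := by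
  classical
  intro c hc hsum t ht
  have hs0 := root_ne k.pos hs
  have hss : s ≠ -s := by
    intro h1
    apply hs0
    have h2 : (2 : ℂ) * s = 0 := by linear_combination h1
    exact (mul_eq_zero.1 h2).resolve_left two_ne_zero
  have h1 := hsum (RingEquiv.refl ℂ)
  rw [finsum_eq_sum_of_support_subset (s := {s, -s})] at h1
  · rw [Finset.sum_pair hss] at h1
    change c s * (finrank ℂ (Ψ.eigenspace s) : ℚ) +
      c (-s) * (finrank ℂ (Ψ.eigenspace (-s)) : ℚ) = 0 at h1
    rw [hp, hq, ← conj_root k.pos hs, hc] at h1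
    have h2 : c s * ((p : ℚ) - q) = 0 := by linear_combination h1
    have h3 : c s = 0 := by
      refine (mul_eq_zero.1 h2).resolve_right fun h4 => hne ?_
      have h5 := sub_eq_zero.1 h4
      exact_mod_cast h5
    rcases root_cases hs (eig_sq k hΨ ht) with h4 | h4
    · rw [h4, h3]
    · rw [h4, ← conj_root k.pos hs, hc, h3, neg_zero]
  · intro z hz
    rw [Function.mem_support] at hz
    have h2 : finrank ℂ (Ψ.eigenspace z) ≠ 0 := by
      intro h3
      apply hz
      change c z * (finrank ℂ (Ψ.eigenspace z) : ℚ) = 0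
      rw [h3, Nat.cast_zero, mul_zero]
    rcases root_cases hs (eig_sq k hΨ h2) with h4 | h4
    · rw [h4]
      simp
    · rw [h4]
      simp

theorem unb_quad (hX : IsSimple X) (hne : p ≠ q) (hnb : NotBinomial p q)
    (hg : ¬p + q ∣ p.gcd q * p.gcd q) : UnbalancedMult X := by
  have hm := minpoly_quad k hX.1
  refine ⟨h, Ψ, s, p, q, maxField_quad k, hΨ, ?_, hp, ?_, hp0, hq0, hne, hnb, ?_⟩
  · rw [hm, map_add, map_pow, aeval_X, aeval_C, pow_two, hs]
    simp
  · rw [hm, natDegree_X_pow_add_C, X.rank, ← dim_add k hΨ hs, hp, hq]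
  · intro s' p' q' hs' hp' hpq' _ _
    rw [hm, map_add, map_pow, aeval_X, aeval_C, pow_two] at hs'
    have h1 : s' * s' = -(d : ℂ) := by
      have h2 := eq_neg_of_add_eq_zero_left hs'
      rw [h2]
      rfl
    rcases root_cases hs h1 with h2 | h2
    · rw [h2, hp] at hp'
      have h3 : q' = q := by omega
      rw [← hp', h3]
      exact hg
    · rw [h2, hq] at hp'
      have h3 : q' = p := by omega
      rw [← hp', h3, Nat.gcd_comm q p]
      exact hg

omit k hΨ hs hp hq hp0 hq0 in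
/-- The factors of a simple abelian variety. -/
theorem factor_simple {X Y : AV} (hX : IsSimple X) (hY : IsFactor Y X) :
    ∃ e : Y.H ≃ₗ[ℚ] X.H, IsHom Y X e.toLinearMap := by
  obtain ⟨hYs, i, hi, hinj⟩ := hY
  obtain ⟨e, he, -⟩ := iso_of_simple hYs hX hi (by
    rintro rfl
    obtain ⟨y, hy⟩ := hYs.1
    exact hy (hinj (by rw [map_zero]; rfl)))
  exact ⟨e, he⟩

/-- **The Tate conjecture for imaginary quadratic multiplication**: Tate classes on all powers are
generated by divisor classes. -/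
theorem tate_quad {K : Type} [Field K] [CharZero K] [Algebra K ℂ] [Algebra.IsAlgebraic K ℂ]
    {Γ : Type} [Group Γ] (hX : IsSimple X) (hne : p ≠ q) (hnb : NotBinomial p q)
    (hg : ¬p + q ∣ p.gcd q * p.gcd q) {E : X.H → X.H → ℚ}
    (hE : Pool.Agent.Y90.St.IsPolarization X.per E)
    {ρ : Representation K Γ (K ⊗[ℚ] X.H)} {χ : Γ →* K}
    (hρ : IsTateModule X.per E ρ χ) : TateGeneratedInDegreeTwo ρ χ := by
  refine tate_generated X hE (fun Y hY => Or.inr ?_) (centre_quad k hΨ)
    (sep_quad k hΨ hs hp hq hp0 hq0) (nondeg_quad k hΨ hs hp hq hp0 hq0 hne) hρ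
  obtain ⟨e, he⟩ := factor_simple hX hY
  exact unbalanced_iso he (unb_quad k hΨ hs hp hq hp0 hq0 hX hne hnb hg)

omit k hΨ hs hp hq hp0 hq0

/-- Small dimensions. -/
theorem small_sig {p q : ℕ} (hp : 0 < p) (hq : 0 < q) (hne : p ≠ q) (h8 : p + q ≤ 8) :
    NotBinomial p q ∧ ¬p + q ∣ p.gcd q * p.gcd q := by
  constructor
  · rintro d k h2 hk ⟨h3, h4⟩
    have h5 : d ≤ q := by
      have h6 : ∀ n k : ℕ, 1 ≤ k → k + 1 ≤ n → n ≤ n.choose k := by
        intro n
        induction n with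
        | zero => intro k h1 h2; omega
        | succ n ih =>
          intro k h1 h2
          obtain ⟨k, rfl⟩ : ∃ j, k = j + 1 := ⟨k - 1, by omega⟩
          rw [Nat.choose_succ_succ']
          by_cases h7 : k + 1 + 1 ≤ n
          · have h8 := ih (k + 1) (by omega) h7
            have h9 : 0 < n.choose k := Nat.choose_pos (by omega)
            omega
          · obtain rfl : n = k + 1 := by omega
            rw [Nat.choose_succ_self_right, Nat.choose_self]
      rw [h4]
      exact h6 d k (by omega) hk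
    have h6 : d ≤ 7 := by omega
    have h7 : k ≤ 6 := by omega
    interval_cases d <;> interval_cases k <;> simp [Nat.choose] at h3 h4 <;> omega
  · have h1 : p ≤ 7 := by omega
    have h2 : q ≤ 7 := by omega
    interval_cases p <;> interval_cases q <;> first | omega | decide

end

end Pool.Agent.K9h17.G
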